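import Pool.Agent.Y141.PA.SQ

/-!
# Project PA: the small part of `n² + n + 1` (`S_E` from `S_SH` and `S_SQ`)
-/

set_option autoImplicit false

namespace Pool.Agent.Y141.PA

open Finset Filter Topology
open Pool.Agent.Y346.PA (TT Small)
open scoped Classical

/-- the exact prime divisors are large -/
def Lg (X n : ℕ) : Prop := ∀ q : ℕ, TT q n → X < q ^ 2

theorem card_B {C : ℝ} {X0 : ℕ}
    (sh : ∀ X p e a : ℕ, X0 ≤ X → p.Prime → p ^ (10 * e) ≤ X →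
      (((Icc 1 X).filter (fun n : ℕ => n ≡ a [MOD p ^ e] ∧ ∀ q : ℕ, TT q n → 3 < q → X < q ^ 2)).card :
        ℝ) ≤ C * Real.log (3 : ℕ) * X / ((p : ℝ) ^ e * Real.log X))
    (X p e : ℕ) (hX : X0 ≤ X) (hp : p.Prime) (h3 : p ≠ 3) (hpe : p ^ (10 * e) ≤ X) :
    (((Icc 1 X).filter (fun n : ℕ => p ^ e ∣ n ^ 2 + n + 1 ∧ Lg X n)).card : ℝ) ≤
      2 * (C * Real.log (3 : ℕ) * X / ((p : ℝ) ^ e * Real.log X)) := by
  obtain ⟨a1, a2, h⟩ := roots hp h3 e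
  have h1 : (Icc 1 X).filter (fun n : ℕ => p ^ e ∣ n ^ 2 + n + 1 ∧ Lg X n) ⊆
      ((Icc 1 X).filter (fun n : ℕ => n ≡ a1 [MOD p ^ e] ∧ ∀ q : ℕ, TT q n → 3 < q → X < q ^ 2)) ∪
        ((Icc 1 X).filter (fun n : ℕ => n ≡ a2 [MOD p ^ e] ∧ ∀ q : ℕ, TT q n → 3 < q → X < q ^ 2)) := by
    intro n hn
    rw [mem_filter] at hn
    rw [mem_union, mem_filter, mem_filter]
    rcases h n hn.2.1 with h4 | h4
    · exact Or.inl ⟨hn.1, h4, fun q hq _ => hn.2.2 q hq⟩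
    · exact Or.inr ⟨hn.1, h4, fun q hq _ => hn.2.2 q hq⟩
  have h2 := sh X p e a1 hX hp hpe
  have h4 := sh X p e a2 hX hp hpe
  have h5 : (((Icc 1 X).filter (fun n : ℕ => p ^ e ∣ n ^ 2 + n + 1 ∧ Lg X n)).card : ℝ) ≤
      ((((Icc 1 X).filter (fun n : ℕ => n ≡ a1 [MOD p ^ e] ∧ ∀ q : ℕ, TT q n → 3 < q → X < q ^ 2)).card : ℕ) : ℝ) +
        (((Icc 1 X).filter (fun n : ℕ => n ≡ a2 [MOD p ^ e] ∧ ∀ q : ℕ, TT q n → 3 < q → X < q ^ 2)).card : ℝ) := by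
    exact_mod_cast (card_le_card h1).trans (card_union_le _ _)
  linarith

/-- the decomposition -/
theorem decomp {Y2 Q n : ℕ} (hY : 3 ≤ Y2) (hQ : 3 ≤ Q)
    (h1 : ∀ q : ℕ, q.Prime → Y2 < q → ¬ q ^ 2 ∣ n ^ 2 + n + 1)
    (h2 : ∀ p : ℕ, p.Prime → p ≤ Y2 → p ≠ 3 → ¬ p ^ (Nat.log p Q + 1) ∣ n ^ 2 + n + 1) :
    ∃ s m : ℕ, n ^ 2 + n + 1 = s * m ∧ s ≤ Q ^ Y2 ∧ Squarefree m ∧ ∀ q : ℕ, q.Prime → q ∣ m → TT q n := by
  set N := n ^ 2 + n + 1 with hN
  have hN0 : N ≠ 0 := by omega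
  set s := ∏ p ∈ N.primeFactors.filter (fun p => p ≤ Y2), p ^ N.factorization p with hs
  set m := ∏ p ∈ N.primeFactors.filter (fun p => ¬ p ≤ Y2), p ^ N.factorization p with hm
  have hsm : N = s * m := by
    rw [hs, hm, prod_filter_mul_prod_filter_not]
    exact (Nat.prod_factorization_pow_eq_self hN0).symm
  have hm0 : m ≠ 0 := by
    intro h
    rw [h, mul_zero] at hsm
    exact hN0 hsm
  have hbig : ∀ q : ℕ, q.Prime → q ∣ m → Y2 < q ∧ q ∣ N := by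
    intro q hq hqm
    rw [hm] at hqm
    obtain ⟨p, hp, hqp⟩ := (Prime.dvd_finsetProd_iff hq.prime _).mp hqm
    rw [mem_filter, Nat.mem_primeFactors] at hp
    have h3 := hq.dvd_of_dvd_pow hqp
    have h4 := (Nat.prime_dvd_prime_iff_eq hq hp.1.1).mp h3
    subst h4
    exact ⟨not_le.mp hp.2, hp.1.2.1⟩
  refine ⟨s, m, hsm, ?_, ?_, ?_⟩
  · have hle : ∀ p ∈ N.primeFactors.filter (fun p => p ≤ Y2), p ^ N.factorization p ≤ Q := by
      intro p hp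
      rw [mem_filter, Nat.mem_primeFactors] at hp
      have hpd : p ^ N.factorization p ∣ N := Nat.ordProj_dvd N p
      by_cases hp3 : p = 3
      · subst hp3
        have h9 : ¬ 3 ^ 2 ∣ N := by
          intro h
          have h5 : (n ^ 2 + n + 1) % 9 = 0 := Nat.mod_eq_zero_of_dvd (by rw [← hN]; exact h)
          have h6 : n % 9 < 9 := Nat.mod_lt _ (by norm_num)
          have h7 : (n ^ 2 + n + 1) % 9 = ((n % 9) ^ 2 + n % 9 + 1) % 9 := by
            simp [Nat.add_mod, Nat.pow_mod]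
          rw [h7] at h5
          generalize n % 9 = r at h5 h6
          interval_cases r <;> omega
        have h4 : N.factorization 3 ≤ 1 := by
          by_contra hcon
          apply h9
          exact dvd_trans (pow_dvd_pow 3 (by omega)) hpd
        calc 3 ^ N.factorization 3 ≤ 3 ^ 1 := Nat.pow_le_pow_right (by norm_num) h4
          _ ≤ Q := by omega
      · have h4 : N.factorization p ≤ Nat.log p Q := by
          by_contra hcon
          apply h2 p hp.1.1 hp.2 hp3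
          exact dvd_trans (pow_dvd_pow p (by omega)) hpd
        calc p ^ N.factorization p ≤ p ^ Nat.log p Q := Nat.pow_le_pow_right hp.1.1.pos h4
          _ ≤ Q := Nat.pow_log_le_self p (by omega)
    have h3 := prod_le_pow_card _ (fun p => p ^ N.factorization p) Q hle
    refine h3.trans (Nat.pow_le_pow_right (by omega) ?_)
    have : N.primeFactors.filter (fun p => p ≤ Y2) ⊆ Icc 1 Y2 := by
      intro p hp
      rw [mem_filter, Nat.mem_primeFactors] at hp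
      exact mem_Icc.mpr ⟨hp.1.1.one_lt.le, hp.2⟩
    simpa using card_le_card this
  · rw [Nat.squarefree_iff_prime_squarefree]
    intro q hq hqq
    have h3 := hbig q hq (dvd_trans (dvd_mul_right q q) hqq)
    apply h1 q hq h3.1
    rw [sq, hsm]
    exact Dvd.dvd.mul_left hqq s
  · intro q hq hqm
    have h3 := hbig q hq hqm
    exact ⟨hq, by omega, h3.2, h1 q hq h3.1⟩

theorem te (sh : Pool.Agent.Y346.PA.S_SH) (sq : Pool.Agent.Y346.PA.S_SQ) : Pool.Agent.Y346.PA.S_E := by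
  intro ε hε
  obtain ⟨C, hC1, hC⟩ := sh
  obtain ⟨X0, hX0⟩ := hC 3 le_rfl
  set C' : ℝ := C * Real.log (3 : ℕ) with hC'
  have hC'0 : 0 ≤ C' := mul_nonneg (by linarith) (Real.log_natCast_nonneg 3)
  obtain ⟨Y2, hY3, hY⟩ : ∃ Y2 : ℕ, 3 ≤ Y2 ∧ 2 * C' / Y2 ≤ ε / 3 := by
    refine ⟨max 3 ⌈6 * C' / ε⌉₊, le_max_left _ _, ?_⟩
    have h1 : 6 * C' / ε ≤ ((max 3 ⌈6 * C' / ε⌉₊ : ℕ) : ℝ) :=
      (Nat.le_ceil _).trans (by exact_mod_cast le_max_right _ _)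
    have h2 : (0 : ℝ) < ((max 3 ⌈6 * C' / ε⌉₊ : ℕ) : ℝ) := by
      have : 0 < max 3 ⌈6 * C' / ε⌉₊ := lt_of_lt_of_le (by norm_num) (le_max_left _ _)
      exact_mod_cast this
    rw [div_le_iff₀ h2]
    rw [div_le_iff₀ hε] at h1
    linarith
  have hY0 : (0 : ℝ) < Y2 := by exact_mod_cast (show 0 < Y2 by omega)
  obtain ⟨Q, hQ3, hQ⟩ : ∃ Q : ℕ, 3 ≤ Q ∧ 2 * C' * Y2 / Q ≤ ε / 3 := by
    refine ⟨max 3 ⌈6 * C' * Y2 / ε⌉₊, le_max_left _ _, ?_⟩
    have h1 : 6 * C' * Y2 / ε ≤ ((max 3 ⌈6 * C' * Y2 / ε⌉₊ : ℕ) : ℝ) :=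
      (Nat.le_ceil _).trans (by exact_mod_cast le_max_right _ _)
    have h2 : (0 : ℝ) < ((max 3 ⌈6 * C' * Y2 / ε⌉₊ : ℕ) : ℝ) := by
      have : 0 < max 3 ⌈6 * C' * Y2 / ε⌉₊ := lt_of_lt_of_le (by norm_num) (le_max_left _ _)
      exact_mod_cast this
    rw [div_le_iff₀ h2]
    rw [div_le_iff₀ hε] at h1
    linarith
  have hQ0 : (0 : ℝ) < Q := by exact_mod_cast (show 0 < Q by omega)
  refine ⟨Q ^ Y2, ?_⟩
  have hsq := sq.eventually (gt_mem_nhds (show (0 : ℝ) < ε / 3 by positivity))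
  filter_upwards [hsq, eventually_ge_atTop X0, eventually_ge_atTop ((Y2 * Q) ^ 10),
    eventually_ge_atTop 3] with X hsqX hXX0 hXYQ hX3
  have hXpos : (0 : ℝ) < X := by exact_mod_cast (show 0 < X by omega)
  have hlog : 0 < Real.log X := Real.log_pos (by exact_mod_cast (show 1 < X by omega))
  set U1 : Finset ℕ := ((Ioc Y2 X).filter (fun q => q.Prime ∧ q ^ 30 ≤ X)).biUnion
    (fun q => (Icc 1 X).filter (fun n : ℕ => q ^ 2 ∣ n ^ 2 + n + 1 ∧ Lg X n)) with hU1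
  set U2 : Finset ℕ := ((Icc 1 Y2).filter (fun p => p.Prime ∧ p ≠ 3)).biUnion
    (fun p => (Icc 1 X).filter (fun n : ℕ => p ^ (Nat.log p Q + 1) ∣ n ^ 2 + n + 1 ∧ Lg X n)) with hU2
  set A := {n : ℕ | 1 ≤ n ∧ n ≤ X ∧ (∀ q : ℕ, TT q n → X < q ^ 2) ∧
    ¬ ∃ s m : ℕ, n ^ 2 + n + 1 = s * m ∧ s ≤ Q ^ Y2 ∧ Squarefree m ∧
      ∀ q : ℕ, q.Prime → q ∣ m → TT q n} with hA
  set B := {n : ℕ | 1 ≤ n ∧ n ≤ X ∧ ∃ q : ℕ, q.Prime ∧ X < q ^ 30 ∧ q ^ 2 ∣ n ^ 2 + n + 1} with hB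
  have hBfin : B.Finite := (Set.finite_Icc 1 X).subset (fun n hn => ⟨hn.1, hn.2.1⟩)
  have hsub : A ⊆ B ∪ ((U1 ∪ U2 : Finset ℕ) : Set ℕ) := by
    rintro n ⟨hn1, hn2, hn3, hn4⟩
    by_contra hcon
    rw [Set.mem_union, not_or, mem_coe, mem_union, not_or] at hcon
    obtain ⟨hc1, hc2, hc3⟩ := hcon
    apply hn4
    apply decomp hY3 hQ3
    · intro q hq hqY hqn
      by_cases hq30 : X < q ^ 30
      · exact hc1 ⟨hn1, hn2, q, hq, hq30, hqn⟩
      · apply hc2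
        rw [hU1, mem_biUnion]
        refine ⟨q, mem_filter.mpr ⟨mem_Ioc.mpr ⟨hqY, ?_⟩, hq, not_lt.mp hq30⟩,
          mem_filter.mpr ⟨mem_Icc.mpr ⟨hn1, hn2⟩, hqn, hn3⟩⟩
        calc q = q ^ 1 := (pow_one q).symm
          _ ≤ q ^ 30 := Nat.pow_le_pow_right hq.pos (by norm_num)
          _ ≤ X := not_lt.mp hq30
    · intro p hp hpY hp3 hpn
      apply hc3
      rw [hU2, mem_biUnion]
      exact ⟨p, mem_filter.mpr ⟨mem_Icc.mpr ⟨hp.one_lt.le, hpY⟩, hp, hp3⟩,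
        mem_filter.mpr ⟨mem_Icc.mpr ⟨hn1, hn2⟩, hpn, hn3⟩⟩
  have hcard : (A.ncard : ℝ) ≤ B.ncard + (U1.card + U2.card) := by
    have h1 : A.ncard ≤ B.ncard + (U1.card + U2.card) := by
      refine (Set.ncard_le_ncard hsub (hBfin.union (Finset.finite_toSet _))).trans ?_
      refine (Set.ncard_union_le _ _).trans ?_
      rw [Set.ncard_coe_finset]
      exact Nat.add_le_add_left (card_union_le _ _) _
    exact_mod_cast h1
  have h1 : (U1.card : ℝ) ≤ 2 * C' * X / (Y2 * Real.log X) := by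
    have h3 : (U1.card : ℝ) ≤ ∑ q ∈ (Ioc Y2 X).filter (fun q => q.Prime ∧ q ^ 30 ≤ X),
        (((Icc 1 X).filter (fun n : ℕ => q ^ 2 ∣ n ^ 2 + n + 1 ∧ Lg X n)).card : ℝ) := by
      exact_mod_cast card_biUnion_le
    have h4 : ∑ q ∈ (Ioc Y2 X).filter (fun q => q.Prime ∧ q ^ 30 ≤ X),
        (((Icc 1 X).filter (fun n : ℕ => q ^ 2 ∣ n ^ 2 + n + 1 ∧ Lg X n)).card : ℝ) ≤
        ∑ q ∈ (Ioc Y2 X).filter (fun q => q.Prime ∧ q ^ 30 ≤ X), (2 * C' * X / Real.log X) * ((q : ℝ) ^ 2)⁻¹ := by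
      refine sum_le_sum fun q hq => ?_
      rw [mem_filter, mem_Ioc] at hq
      have h5 := card_B hX0 X q 2 hXX0 hq.2.1 (by omega) ((Nat.pow_le_pow_right hq.2.1.pos (by norm_num)).trans hq.2.2)
      refine h5.trans (le_of_eq ?_)
      have : (0 : ℝ) < q := by exact_mod_cast hq.2.1.pos
      rw [← hC']
      field_simp
    have h5 : ∑ q ∈ (Ioc Y2 X).filter (fun q => q.Prime ∧ q ^ 30 ≤ X), (2 * C' * X / Real.log X) * ((q : ℝ) ^ 2)⁻¹ ≤
        ∑ q ∈ Ioc Y2 X, (2 * C' * X / Real.log X) * ((q : ℝ) ^ 2)⁻¹ := by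
      apply sum_le_sum_of_subset_of_nonneg (filter_subset _ _)
      intro q _ _
      positivity
    have h6 : ∑ q ∈ Ioc Y2 X, (2 * C' * X / Real.log X) * ((q : ℝ) ^ 2)⁻¹ =
        (2 * C' * X / Real.log X) * ∑ q ∈ Ioc Y2 X, ((q : ℝ) ^ 2)⁻¹ := (mul_sum _ _ _).symm
    have h7 : ∑ q ∈ Ioc Y2 X, ((q : ℝ) ^ 2)⁻¹ ≤ 1 / Y2 := by
      rcases le_or_gt Y2 X with h | h
      · have := sum_Ioc_inv_sq_le_sub (α := ℝ) (show Y2 ≠ 0 by omega) h
        have h8 : (0 : ℝ) ≤ (X : ℝ)⁻¹ := by positivity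
        rw [one_div]
        linarith
      · rw [Ioc_eq_empty (by omega), sum_empty]
        positivity
    have h9 := mul_le_mul_of_nonneg_left h7 (show 0 ≤ 2 * C' * X / Real.log X by positivity)
    have h10 : 2 * C' * X / Real.log X * (1 / Y2) = 2 * C' * X / (Y2 * Real.log X) := by
      field_simp
    linarith
  have h2 : (U2.card : ℝ) ≤ 2 * C' * Y2 * X / (Q * Real.log X) := by
    have h3 : (U2.card : ℝ) ≤ ∑ p ∈ (Icc 1 Y2).filter (fun p => p.Prime ∧ p ≠ 3),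
        (((Icc 1 X).filter (fun n : ℕ => p ^ (Nat.log p Q + 1) ∣ n ^ 2 + n + 1 ∧ Lg X n)).card : ℝ) := by
      exact_mod_cast card_biUnion_le
    have h4 : ∑ p ∈ (Icc 1 Y2).filter (fun p => p.Prime ∧ p ≠ 3),
        (((Icc 1 X).filter (fun n : ℕ => p ^ (Nat.log p Q + 1) ∣ n ^ 2 + n + 1 ∧ Lg X n)).card : ℝ) ≤
        ∑ p ∈ (Icc 1 Y2).filter (fun p => p.Prime ∧ p ≠ 3), 2 * C' * X / (Q * Real.log X) := by
      refine sum_le_sum fun p hp => ?_
      rw [mem_filter, mem_Icc] at hp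
      have hpQ : p ^ (Nat.log p Q + 1) ≤ Y2 * Q := by
        rw [pow_succ, mul_comm]
        exact Nat.mul_le_mul hp.1.2 (Nat.pow_log_le_self p (by omega))
      have hpX : p ^ (10 * (Nat.log p Q + 1)) ≤ X := by
        rw [mul_comm, pow_mul]
        exact (Nat.pow_le_pow_left hpQ 10).trans hXYQ
      have h5 := card_B hX0 X p _ hXX0 hp.2.1 hp.2.2 hpX
      refine h5.trans ?_
      have h6 : (Q : ℝ) ≤ (p : ℝ) ^ (Nat.log p Q + 1) := by
        have := (Nat.lt_pow_succ_log_self (b := p) hp.2.1.one_lt Q).le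
        exact_mod_cast this
      rw [← mul_div_assoc, ← mul_assoc, ← mul_assoc]
      rw [show (2 * C * Real.log (3 : ℕ) * X : ℝ) = 2 * C' * X by rw [hC']; ring]
      apply div_le_div_of_nonneg_left (by positivity) (by positivity)
      exact mul_le_mul_of_nonneg_right h6 hlog.le
    rw [sum_const, nsmul_eq_mul] at h4
    have h5 : (((Icc 1 Y2).filter (fun p => p.Prime ∧ p ≠ 3)).card : ℝ) ≤ Y2 := by
      have := card_filter_le (Icc 1 Y2) (fun p => p.Prime ∧ p ≠ 3)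
      rw [Nat.card_Icc, Nat.add_sub_cancel] at this
      exact_mod_cast this
    have h6 := mul_le_mul_of_nonneg_right h5 (show 0 ≤ 2 * C' * X / (Q * Real.log X) by positivity)
    have h7 : (Y2 : ℝ) * (2 * C' * X / (Q * Real.log X)) = 2 * C' * Y2 * X / (Q * Real.log X) := by ring
    linarith
  have h3 : (B.ncard : ℝ) * Real.log X / X ≤ ε / 3 := hsqX.le
  calc (A.ncard : ℝ) * Real.log X / X
      ≤ (B.ncard + (2 * C' * X / (Y2 * Real.log X) + 2 * C' * Y2 * X / (Q * Real.log X))) * Real.log X / X := by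
        apply div_le_div_of_nonneg_right _ hXpos.le
        apply mul_le_mul_of_nonneg_right _ hlog.le
        linarith
    _ = B.ncard * Real.log X / X + (2 * C' / Y2 + 2 * C' * Y2 / Q) := by
        field_simp
    _ ≤ ε := by linarith

end Pool.Agent.Y141.PA
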