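import Pool.Agent.Y346.PA.Stm

/-!
# Project PA: values of `n² + n + 1` divisible by the square of a large prime (`S_SQ`)
-/

set_option autoImplicit false

namespace Pool.Agent.Y141.PA

open Finset Filter Topology

/-- there are at most two roots modulo a prime power -/
theorem roots {p : ℕ} (hp : p.Prime) (h3 : p ≠ 3) (e : ℕ) :
    ∃ a1 a2 : ℕ, ∀ n : ℕ, p ^ e ∣ n ^ 2 + n + 1 → n ≡ a1 [MOD p ^ e] ∨ n ≡ a2 [MOD p ^ e] := by
  by_cases hex : ∃ n0, p ^ e ∣ n0 ^ 2 + n0 + 1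
  swap
  · push Not at hex
    exact ⟨0, 0, fun n hn => absurd hn (hex n)⟩
  obtain ⟨n0, hn0⟩ := hex
  refine ⟨n0, (p ^ e - 1) * (n0 + 1), fun n hn => ?_⟩
  rcases Nat.eq_zero_or_pos e with he | he
  · subst he
    left
    rw [pow_zero]
    exact Nat.modEq_one
  have hpI : Prime (p : ℤ) := Nat.prime_iff_prime_int.mp hp
  have h1 : ((p : ℤ) ^ e) ∣ ((n : ℤ) - n0) * (n + n0 + 1) := by
    have ha : ((p : ℤ) ^ e) ∣ (n : ℤ) ^ 2 + n + 1 := by exact_mod_cast hn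
    have hb : ((p : ℤ) ^ e) ∣ (n0 : ℤ) ^ 2 + n0 + 1 := by exact_mod_cast hn0
    have hc := dvd_sub ha hb
    have : ((n : ℤ) ^ 2 + n + 1) - ((n0 : ℤ) ^ 2 + n0 + 1) = ((n : ℤ) - n0) * (n + n0 + 1) := by ring
    rwa [this] at hc
  by_cases hd : (p : ℤ) ∣ (n : ℤ) - n0
  · -- then `p` does not divide the other factor
    have hnd : ¬ (p : ℤ) ∣ (n : ℤ) + n0 + 1 := by
      intro h2
      have h4 : (p : ℤ) ∣ (n : ℤ) ^ 2 + n + 1 := by
        have : p ∣ n ^ 2 + n + 1 := dvd_trans (dvd_pow_self p he.ne') hn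
        exact_mod_cast this
      have h5 : (p : ℤ) ∣ 2 * (n : ℤ) + 1 := by
        have := dvd_add hd h2
        have e1 : ((n : ℤ) - n0) + ((n : ℤ) + n0 + 1) = 2 * n + 1 := by ring
        rwa [e1] at this
      have h6 : (p : ℤ) ∣ 3 := by
        have e2 : (3 : ℤ) = 4 * ((n : ℤ) ^ 2 + n + 1) - (2 * n + 1) * (2 * n + 1) := by ring
        rw [e2]
        exact dvd_sub (Dvd.dvd.mul_left h4 _) (Dvd.dvd.mul_left h5 _)
      have h7 : p ∣ 3 := by exact_mod_cast h6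
      have h8 := (Nat.prime_dvd_prime_iff_eq hp Nat.prime_three).mp h7
      exact h3 h8
    left
    have h2 : ((p : ℤ) ^ e) ∣ (n : ℤ) - n0 := by
      rw [mul_comm] at h1
      exact hpI.pow_dvd_of_dvd_mul_left e hnd h1
    have h3' : ((p ^ e : ℕ) : ℤ) ∣ (n : ℤ) - n0 := by exact_mod_cast h2
    exact ((Nat.modEq_iff_dvd).mpr h3').symm
  · right
    have h2 : ((p : ℤ) ^ e) ∣ (n : ℤ) + n0 + 1 := hpI.pow_dvd_of_dvd_mul_left e hd h1
    have h3' : (p ^ e) ∣ n + (n0 + 1) := by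
      have : ((p ^ e : ℕ) : ℤ) ∣ ((n + (n0 + 1) : ℕ) : ℤ) := by
        push_cast
        rw [← add_assoc]
        exact h2
      exact_mod_cast this
    have h4 : p ^ e ∣ (p ^ e - 1) * (n0 + 1) + (n0 + 1) := by
      have hpos : 1 ≤ p ^ e := Nat.one_le_pow _ _ hp.pos
      have : (p ^ e - 1) * (n0 + 1) + (n0 + 1) = p ^ e * (n0 + 1) := by
        obtain ⟨k, hk⟩ : ∃ k, p ^ e = k + 1 := ⟨p ^ e - 1, by omega⟩
        rw [hk]
        simp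
        ring
      rw [this]
      exact dvd_mul_right _ _
    have h5 : n + (n0 + 1) ≡ (p ^ e - 1) * (n0 + 1) + (n0 + 1) [MOD p ^ e] :=
      ((Nat.modEq_zero_iff_dvd).mpr h3').trans ((Nat.modEq_zero_iff_dvd).mpr h4).symm
    exact Nat.ModEq.add_right_cancel' _ h5

theorem card_class (X D a : ℕ) (hD : 0 < D) :
    (((Icc 1 X).filter (fun n : ℕ => n ≡ a [MOD D])).card : ℝ) ≤ X / D + 1 := by
  have h1 : Icc 1 X = Ioc 0 X := by
    ext x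
    simp [Nat.succ_le_iff]
  rw [h1]
  have h2 := Nat.Ioc_filter_modEq_card 0 X hD a
  have h3 : (((Ioc 0 X).filter (fun n : ℕ => n ≡ a [MOD D])).card : ℝ) =
      ((max (⌊((X : ℚ) - a) / D⌋ - ⌊(((0 : ℕ) : ℚ) - a) / D⌋) 0 : ℤ) : ℝ) := by
    rw [← h2]
    simp
  rw [h3]
  push_cast
  apply max_le
  · have h4 : ((⌊((X : ℚ) - a) / D⌋ : ℤ) : ℝ) ≤ ((X : ℝ) - a) / D := by
      have := Int.floor_le (((X : ℚ) - a) / D)
      exact_mod_cast this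
    have h5 : ((((0 : ℕ) : ℝ) - a) / D) - 1 ≤ ((⌊(((0 : ℕ) : ℚ) - a) / D⌋ : ℤ) : ℝ) := by
      have := (Int.sub_one_lt_floor ((((0 : ℕ) : ℚ) - a) / D)).le
      exact_mod_cast this
    have hD' : (0 : ℝ) < D := by exact_mod_cast hD
    have h6 : ((X : ℝ) - a) / D - (((((0 : ℕ) : ℝ) - a) / D) - 1) = X / D + 1 := by
      push_cast
      field_simp
      ring
    push_cast at h4 h5 h6 ⊢
    linarith
  · positivity

theorem card_root (X : ℕ) {p : ℕ} (hp : p.Prime) (h3 : p ≠ 3) (e : ℕ) :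
    (((Icc 1 X).filter (fun n : ℕ => p ^ e ∣ n ^ 2 + n + 1)).card : ℝ) ≤ 2 * (X / (p : ℝ) ^ e + 1) := by
  obtain ⟨a1, a2, h⟩ := roots hp h3 e
  have hpos : 0 < p ^ e := pow_pos hp.pos e
  have h1 : (Icc 1 X).filter (fun n : ℕ => p ^ e ∣ n ^ 2 + n + 1) ⊆
      ((Icc 1 X).filter (fun n : ℕ => n ≡ a1 [MOD p ^ e])) ∪
        ((Icc 1 X).filter (fun n : ℕ => n ≡ a2 [MOD p ^ e])) := by
    intro n hn
    rw [mem_filter] at hn
    rw [mem_union, mem_filter, mem_filter]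
    rcases h n hn.2 with h4 | h4
    · exact Or.inl ⟨hn.1, h4⟩
    · exact Or.inr ⟨hn.1, h4⟩
  have h2 := card_class X (p ^ e) a1 hpos
  have h4 := card_class X (p ^ e) a2 hpos
  have h5 : (((Icc 1 X).filter (fun n : ℕ => p ^ e ∣ n ^ 2 + n + 1)).card : ℝ) ≤
      ((((Icc 1 X).filter (fun n : ℕ => n ≡ a1 [MOD p ^ e])).card : ℕ) : ℝ) +
        (((Icc 1 X).filter (fun n : ℕ => n ≡ a2 [MOD p ^ e])).card : ℝ) := by
    exact_mod_cast (card_le_card h1).trans (card_union_le _ _)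
  push_cast at h2 h4
  linarith

/-- two solutions of `x² + 3 = m y²` -/
theorem pell {m x1 y1 x2 y2 : ℤ} (hx1 : 3 ≤ x1) (hx : x1 ≤ x2) (hx2 : x2 ≤ 2 * x1) (hy1 : 0 < y1)
    (hy2 : 0 < y2) (hm : 0 < m) (h1 : x1 ^ 2 + 3 = m * y1 ^ 2) (h2 : x2 ^ 2 + 3 = m * y2 ^ 2) :
    1 ≤ m * y1 * y2 - x1 * x2 ∧ m * y1 * y2 - x1 * x2 ≤ 4 ∧
      -2 ≤ x1 * y2 - x2 * y1 ∧ x1 * y2 - x2 * y1 ≤ 2 := by
  set l := m * y1 * y2 - x1 * x2 with hl
  set k := x1 * y2 - x2 * y1 with hk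
  have hmy : 0 < m * y1 * y2 := mul_pos (mul_pos hm hy1) hy2
  have e1 : (m * y1 * y2) ^ 2 = (x1 ^ 2 + 3) * (x2 ^ 2 + 3) := by rw [h1, h2]; ring
  have e2 : l ^ 2 - m * k ^ 2 = 9 := by
    have : l ^ 2 - m * k ^ 2 = (m * y1 ^ 2 - x1 ^ 2) * (m * y2 ^ 2 - x2 ^ 2) := by rw [hl, hk]; ring
    rw [this, ← h1, ← h2]; ring
  have hxx : 0 < x1 * x2 := mul_pos (by omega) (by omega)
  have hl1 : 1 ≤ l := by
    by_contra hcon
    have h3 : m * y1 * y2 ≤ x1 * x2 := by omega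
    have h4 : (m * y1 * y2) ^ 2 ≤ (x1 * x2) ^ 2 := pow_le_pow_left₀ hmy.le h3 2
    nlinarith [sq_nonneg x1, sq_nonneg x2]
  have hl4 : l ≤ 4 := by
    by_contra hcon
    have h3 : x1 * x2 + 5 ≤ m * y1 * y2 := by omega
    have h4 : (x1 * x2 + 5) ^ 2 ≤ (m * y1 * y2) ^ 2 := pow_le_pow_left₀ (by positivity) h3 2
    have h5 : 0 ≤ (x2 - x1) * (2 * x1 - x2) := mul_nonneg (by omega) (by omega)
    nlinarith [mul_nonneg (show (0 : ℤ) ≤ x2 - x1 by omega) (show (0 : ℤ) ≤ x1 by omega)]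
  have hk2 : k ^ 2 ≤ 7 := by
    have h3 : m * k ^ 2 ≤ 7 := by nlinarith
    have h4 : k ^ 2 ≤ m * k ^ 2 := by nlinarith [sq_nonneg k]
    omega
  refine ⟨hl1, hl4, ?_, ?_⟩ <;> nlinarith

open scoped Classical in
theorem card_pell (X m : ℕ) (hm : 0 < m) :
    ((Icc 1 X).filter (fun n : ℕ => ∃ q : ℕ, n ^ 2 + n + 1 = m * q ^ 2)).card ≤
      20 * (Nat.log 2 X + 1) := by
  classical
  set A := (Icc 1 X).filter (fun n : ℕ => ∃ q : ℕ, n ^ 2 + n + 1 = m * q ^ 2) with hA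
  have hq : ∀ n : ℕ, ∃ q : ℕ, n ∈ A → n ^ 2 + n + 1 = m * q ^ 2 := by
    intro n
    by_cases h : n ∈ A
    · obtain ⟨q, hq⟩ := (mem_filter.mp h).2
      exact ⟨q, fun _ => hq⟩
    · exact ⟨0, fun h' => absurd h' h⟩
  choose Q hQ using hq
  have hblock : ∀ i ∈ A.image (Nat.log 2), (A.filter (fun n => Nat.log 2 n = i)).card ≤ 20 := by
    intro i hi
    have hne : (A.filter (fun n => Nat.log 2 n = i)).Nonempty := by
      obtain ⟨n, hn, hni⟩ := mem_image.mp hi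
      exact ⟨n, mem_filter.mpr ⟨hn, hni⟩⟩
    set n0 := (A.filter (fun n => Nat.log 2 n = i)).min' hne with hn0
    have hn0m := min'_mem _ hne
    rw [← hn0, mem_filter] at hn0m
    have h20 : ((Icc (-2 : ℤ) 2) ×ˢ (Icc (1 : ℤ) 4)).card = 20 := by decide
    rw [← h20]
    set x1 : ℤ := 2 * n0 + 1 with hx1
    set y1 : ℤ := 2 * Q n0 with hy1
    have key : ∀ n ∈ A.filter (fun n => Nat.log 2 n = i),
        1 ≤ (m : ℤ) * y1 * (2 * Q n) - x1 * (2 * n + 1) ∧ (m : ℤ) * y1 * (2 * Q n) - x1 * (2 * n + 1) ≤ 4 ∧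
        -2 ≤ x1 * (2 * Q n) - (2 * n + 1) * y1 ∧ x1 * (2 * Q n) - (2 * n + 1) * y1 ≤ 2 := by
      intro n hn
      have hle : n0 ≤ n := min'_le _ _ hn
      rw [mem_filter] at hn
      have e0 := hQ n0 hn0m.1
      have e1 := hQ n hn.1
      have p0 : 1 ≤ n0 := (mem_Icc.mp (mem_filter.mp hn0m.1).1).1
      have p1 : 1 ≤ n := (mem_Icc.mp (mem_filter.mp hn.1).1).1
      have q0 : 0 < Q n0 := by
        rcases Nat.eq_zero_or_pos (Q n0) with h | h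
        · rw [h] at e0; simp at e0
        · exact h
      have q1 : 0 < Q n := by
        rcases Nat.eq_zero_or_pos (Q n) with h | h
        · rw [h] at e1; simp at e1
        · exact h
      have l0 : 2 ^ i ≤ n0 := by
        have := Nat.pow_log_le_self 2 (show n0 ≠ 0 by omega)
        rwa [hn0m.2] at this
      have l1 : n < 2 ^ (i + 1) := by
        have := Nat.lt_pow_succ_log_self (b := 2) (by norm_num) n
        rwa [hn.2] at this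
      have l2 : n < 2 * n0 := by rw [pow_succ] at l1; omega
      have e0' : (n0 : ℤ) ^ 2 + n0 + 1 = m * (Q n0 : ℤ) ^ 2 := by exact_mod_cast e0
      have e1' : (n : ℤ) ^ 2 + n + 1 = m * (Q n : ℤ) ^ 2 := by exact_mod_cast e1
      refine pell (m := (m : ℤ)) (x1 := x1) (y1 := y1) (x2 := 2 * n + 1) (y2 := 2 * Q n) ?_ ?_ ?_ ?_ ?_ ?_ ?_ ?_
      · omega
      · omega
      · omega
      · omega
      · omega
      · exact_mod_cast hm
      · rw [hx1, hy1]; linear_combination 4 * e0'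
      · linear_combination 4 * e1'
    apply card_le_card_of_injOn (fun n => (x1 * (2 * Q n) - (2 * n + 1) * y1,
      (m : ℤ) * y1 * (2 * Q n) - x1 * (2 * n + 1)))
    · intro n hn
      obtain ⟨h1, h2, h3, h4⟩ := key n hn
      rw [mem_coe, mem_product, mem_Icc, mem_Icc]
      exact ⟨⟨h3, h4⟩, ⟨h1, h2⟩⟩
    · intro a ha b hb hab
      simp only [Prod.mk.injEq] at hab
      obtain ⟨hk, hl⟩ := hab
      have e0 := hQ n0 hn0m.1
      have e0' : (n0 : ℤ) ^ 2 + n0 + 1 = m * (Q n0 : ℤ) ^ 2 := by exact_mod_cast e0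
      have h3 : m * y1 ^ 2 - x1 ^ 2 = 3 := by rw [hx1, hy1]; linear_combination (-4) * e0'
      have h4 : 3 * (2 * (a : ℤ) + 1) = 3 * (2 * (b : ℤ) + 1) := by
        have ea : 3 * (2 * (a : ℤ) + 1) = x1 * (m * y1 * (2 * Q a) - x1 * (2 * a + 1)) -
            m * y1 * (x1 * (2 * Q a) - (2 * a + 1) * y1) := by rw [← h3]; ring
        have eb : 3 * (2 * (b : ℤ) + 1) = x1 * (m * y1 * (2 * Q b) - x1 * (2 * b + 1)) -
            m * y1 * (x1 * (2 * Q b) - (2 * b + 1) * y1) := by rw [← h3]; ring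
        rw [ea, eb, hk, hl]
      omega
  have h1 := card_le_mul_card_image (f := Nat.log 2) A 20 hblock
  have h2 : (A.image (Nat.log 2)).card ≤ Nat.log 2 X + 1 := by
    have : A.image (Nat.log 2) ⊆ range (Nat.log 2 X + 1) := by
      intro i hi
      obtain ⟨n, hn, hni⟩ := mem_image.mp hi
      rw [mem_range, ← hni]
      have := (mem_Icc.mp (mem_filter.mp hn).1).2
      have := Nat.log_mono_right (b := 2) this
      omega
    simpa using card_le_card this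
  calc A.card ≤ 20 * (A.image (Nat.log 2)).card := h1
    _ ≤ 20 * (Nat.log 2 X + 1) := Nat.mul_le_mul_left _ h2

open scoped Classical in
theorem bound (X : ℕ) (hX : 3 ^ 30 ≤ X) :
    (({n : ℕ | 1 ≤ n ∧ n ≤ X ∧ ∃ q : ℕ, q.Prime ∧ X < q ^ 30 ∧ q ^ 2 ∣ n ^ 2 + n + 1}.ncard : ℝ)) ≤
      2 * X / (⌊(X : ℝ) ^ (1 / 30 : ℝ)⌋₊ : ℝ) + 2 * (⌊(X : ℝ) ^ (2 / 3 : ℝ)⌋₊ : ℝ) +
        20 * ((Nat.log 2 X : ℝ) + 1) * (⌊3 * (X : ℝ) ^ (2 / 3 : ℝ)⌋₊ : ℝ) := by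
  have hX1 : (1 : ℝ) ≤ X := by
    have : 1 ≤ X := le_trans (by norm_num) hX
    exact_mod_cast this
  have hX0 : (0 : ℝ) < X := by linarith
  set w := ⌊(X : ℝ) ^ (1 / 30 : ℝ)⌋₊ with hw
  set Z := ⌊(X : ℝ) ^ (2 / 3 : ℝ)⌋₊ with hZ
  set Mx := ⌊3 * (X : ℝ) ^ (2 / 3 : ℝ)⌋₊ with hMx
  have hroot : ((X : ℝ) ^ (1 / 30 : ℝ)) ^ 30 = X := by
    rw [← Real.rpow_natCast, ← Real.rpow_mul hX0.le]
    norm_num
  have hw3 : 3 ≤ w := by
    apply Nat.le_floor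
    have h1 : ((3 : ℝ)) = ((3 : ℝ) ^ (30 : ℕ)) ^ (1 / 30 : ℝ) := by
      rw [← Real.rpow_natCast, ← Real.rpow_mul (by norm_num)]
      norm_num
    push_cast
    rw [h1]
    apply Real.rpow_le_rpow (by positivity) _ (by norm_num)
    exact_mod_cast hX
  set U1 : Finset ℕ := ((Ioc w Z).filter Nat.Prime).biUnion
    (fun q => (Icc 1 X).filter (fun n : ℕ => q ^ 2 ∣ n ^ 2 + n + 1)) with hU1
  set U2 : Finset ℕ := (Icc 1 Mx).biUnion
    (fun m => (Icc 1 X).filter (fun n : ℕ => ∃ q : ℕ, n ^ 2 + n + 1 = m * q ^ 2)) with hU2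
  have hsub : {n : ℕ | 1 ≤ n ∧ n ≤ X ∧ ∃ q : ℕ, q.Prime ∧ X < q ^ 30 ∧ q ^ 2 ∣ n ^ 2 + n + 1} ⊆
      ((U1 ∪ U2 : Finset ℕ) : Set ℕ) := by
    rintro n ⟨hn1, hn2, q, hq, hqX, hqn⟩
    rw [mem_coe, mem_union]
    by_cases hqZ : q ≤ Z
    · left
      rw [hU1, mem_biUnion]
      refine ⟨q, mem_filter.mpr ⟨mem_Ioc.mpr ⟨?_, hqZ⟩, hq⟩, mem_filter.mpr ⟨mem_Icc.mpr ⟨hn1, hn2⟩, hqn⟩⟩
      by_contra hcon
      have h1 : (q : ℝ) ≤ (X : ℝ) ^ (1 / 30 : ℝ) := by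
        refine le_trans ?_ (Nat.floor_le (by positivity))
        exact_mod_cast (not_lt.mp hcon)
      have h2 : (q : ℝ) ^ 30 ≤ X := by
        rw [← hroot]
        exact pow_le_pow_left₀ (by positivity) h1 30
      have h3 : q ^ 30 ≤ X := by exact_mod_cast h2
      omega
    · right
      obtain ⟨m, hm⟩ := hqn
      rw [hU2, mem_biUnion]
      refine ⟨m, ?_, mem_filter.mpr ⟨mem_Icc.mpr ⟨hn1, hn2⟩, q, by rw [hm, mul_comm]⟩⟩
      rw [mem_Icc]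
      constructor
      · rcases Nat.eq_zero_or_pos m with h | h
        · rw [h] at hm; simp at hm
        · exact h
      · apply Nat.le_floor
        have h1 : (X : ℝ) ^ (2 / 3 : ℝ) ≤ q := by
          have h2 : (X : ℝ) ^ (2 / 3 : ℝ) < (Z : ℝ) + 1 := Nat.lt_floor_add_one _
          have h3 : (Z : ℝ) + 1 ≤ q := by exact_mod_cast (not_le.mp hqZ)
          linarith
        have h2 : ((X : ℝ) ^ (2 / 3 : ℝ)) ^ 2 * (X : ℝ) ^ (2 / 3 : ℝ) = (X : ℝ) ^ 2 := by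
          rw [← Real.rpow_natCast, ← Real.rpow_natCast, ← Real.rpow_mul hX0.le, ← Real.rpow_add hX0]
          norm_num
        have h3 : (m : ℝ) * (q : ℝ) ^ 2 ≤ 3 * (X : ℝ) ^ 2 := by
          have h4 : n ^ 2 + n + 1 ≤ 3 * X ^ 2 := by nlinarith
          rw [hm] at h4
          have h5 : m * q ^ 2 ≤ 3 * X ^ 2 := by rw [mul_comm]; exact h4
          exact_mod_cast h5
        have h4 : (m : ℝ) * ((X : ℝ) ^ (2 / 3 : ℝ)) ^ 2 ≤ 3 * (X : ℝ) ^ 2 := by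
          refine le_trans ?_ h3
          exact mul_le_mul_of_nonneg_left (pow_le_pow_left₀ (by positivity) h1 2) (by positivity)
        rw [← h2] at h4
        have h5 : 0 < ((X : ℝ) ^ (2 / 3 : ℝ)) ^ 2 := by positivity
        have h6 : (m : ℝ) * ((X : ℝ) ^ (2 / 3 : ℝ)) ^ 2 ≤
            (3 * (X : ℝ) ^ (2 / 3 : ℝ)) * ((X : ℝ) ^ (2 / 3 : ℝ)) ^ 2 := by linarith
        exact le_of_mul_le_mul_right h6 h5
  have h1 : {n : ℕ | 1 ≤ n ∧ n ≤ X ∧ ∃ q : ℕ, q.Prime ∧ X < q ^ 30 ∧ q ^ 2 ∣ n ^ 2 + n + 1}.ncard ≤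
      U1.card + U2.card := by
    refine (Set.ncard_le_ncard hsub (Finset.finite_toSet _)).trans ?_
    rw [Set.ncard_coe_finset]
    exact card_union_le _ _
  have h2 : (U1.card : ℝ) ≤ 2 * X / (w : ℝ) + 2 * (Z : ℝ) := by
    have h3 : (U1.card : ℝ) ≤ ∑ q ∈ (Ioc w Z).filter Nat.Prime,
        (((Icc 1 X).filter (fun n : ℕ => q ^ 2 ∣ n ^ 2 + n + 1)).card : ℝ) := by
      exact_mod_cast card_biUnion_le
    have h4 : ∑ q ∈ (Ioc w Z).filter Nat.Prime,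
        (((Icc 1 X).filter (fun n : ℕ => q ^ 2 ∣ n ^ 2 + n + 1)).card : ℝ) ≤
        ∑ q ∈ (Ioc w Z).filter Nat.Prime, 2 * (X * ((q : ℝ) ^ 2)⁻¹ + 1) := by
      refine sum_le_sum fun q hq => ?_
      rw [mem_filter, mem_Ioc] at hq
      have := card_root X hq.2 (by omega) 2
      rwa [div_eq_mul_inv] at this
    have h5 : ∑ q ∈ (Ioc w Z).filter Nat.Prime, 2 * ((X : ℝ) * ((q : ℝ) ^ 2)⁻¹ + 1) ≤
        ∑ q ∈ Ioc w Z, 2 * ((X : ℝ) * ((q : ℝ) ^ 2)⁻¹ + 1) := by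
      apply sum_le_sum_of_subset_of_nonneg (filter_subset _ _)
      intro q _ _
      positivity
    have h6 : ∑ q ∈ Ioc w Z, 2 * ((X : ℝ) * ((q : ℝ) ^ 2)⁻¹ + 1) =
        2 * X * ∑ q ∈ Ioc w Z, ((q : ℝ) ^ 2)⁻¹ + 2 * ((Ioc w Z).card : ℝ) := by
      rw [← mul_sum, sum_add_distrib, ← mul_sum, sum_const, nsmul_eq_mul, mul_one]
      ring
    have h7 : ∑ q ∈ Ioc w Z, ((q : ℝ) ^ 2)⁻¹ ≤ 1 / w := by
      rcases le_or_gt w Z with h | h
      · have := sum_Ioc_inv_sq_le_sub (α := ℝ) (show w ≠ 0 by omega) h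
        have h8 : (0 : ℝ) ≤ (Z : ℝ)⁻¹ := by positivity
        rw [one_div]
        linarith
      · rw [Ioc_eq_empty (by omega), sum_empty]
        positivity
    have h8 : ((Ioc w Z).card : ℝ) ≤ Z := by
      rw [Nat.card_Ioc]
      exact_mod_cast Nat.sub_le _ _
    have h9 : 2 * (X : ℝ) * ∑ q ∈ Ioc w Z, ((q : ℝ) ^ 2)⁻¹ ≤ 2 * X * (1 / w) :=
      mul_le_mul_of_nonneg_left h7 (by positivity)
    have h10 : 2 * (X : ℝ) * (1 / w) = 2 * X / w := by ring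
    linarith
  have h3 : (U2.card : ℝ) ≤ 20 * ((Nat.log 2 X : ℝ) + 1) * (Mx : ℝ) := by
    have h4 : U2.card ≤ ∑ m ∈ Icc 1 Mx,
        ((Icc 1 X).filter (fun n : ℕ => ∃ q : ℕ, n ^ 2 + n + 1 = m * q ^ 2)).card := card_biUnion_le
    have h5 : ∑ m ∈ Icc 1 Mx, ((Icc 1 X).filter (fun n : ℕ => ∃ q : ℕ, n ^ 2 + n + 1 = m * q ^ 2)).card ≤
        ∑ m ∈ Icc 1 Mx, 20 * (Nat.log 2 X + 1) := by
      refine sum_le_sum fun m hm => card_pell X m ?_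
      exact (mem_Icc.mp hm).1
    rw [sum_const, Nat.card_Icc, smul_eq_mul] at h5
    have h6 : U2.card ≤ 20 * (Nat.log 2 X + 1) * Mx := by
      refine h4.trans (h5.trans (le_of_eq ?_))
      rw [Nat.add_sub_cancel]
      ring
    exact_mod_cast h6
  have h4 : (({n : ℕ | 1 ≤ n ∧ n ≤ X ∧ ∃ q : ℕ, q.Prime ∧ X < q ^ 30 ∧ q ^ 2 ∣ n ^ 2 + n + 1}.ncard : ℝ)) ≤
      (U1.card : ℝ) + U2.card := by exact_mod_cast h1
  linarith

theorem S_SQ : Pool.Agent.Y346.PA.S_SQ := by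
  unfold Pool.Agent.Y346.PA.S_SQ Pool.Agent.Y346.PA.Small
  have hlim : Tendsto (fun X : ℕ => 240 * (X : ℝ) ^ (-(1 / 60) : ℝ) + 100000 * (X : ℝ) ^ (-(1 / 6) : ℝ))
      atTop (𝓝 0) := by
    have h1 := (tendsto_rpow_neg_atTop (show (0 : ℝ) < 1 / 60 by norm_num)).comp
      (tendsto_natCast_atTop_atTop (R := ℝ))
    have h2 := (tendsto_rpow_neg_atTop (show (0 : ℝ) < 1 / 6 by norm_num)).comp
      (tendsto_natCast_atTop_atTop (R := ℝ))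
    have h3 := (h1.const_mul 240).add (h2.const_mul 100000)
    simpa using h3
  refine squeeze_zero' (Eventually.of_forall fun X => ?_) ?_ hlim
  · positivity
  filter_upwards [eventually_ge_atTop (3 ^ 30)] with X hX
  have hX1 : (1 : ℝ) ≤ X := by
    have : 1 ≤ X := le_trans (by norm_num) hX
    exact_mod_cast this
  have hX0 : (0 : ℝ) < X := by linarith
  have hb := bound X hX
  set N : ℝ := (({n : ℕ | 1 ≤ n ∧ n ≤ X ∧ ∃ q : ℕ, q.Prime ∧ X < q ^ 30 ∧ q ^ 2 ∣ n ^ 2 + n + 1}.ncard : ℝ))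
    with hN
  have hlog : 0 ≤ Real.log X := Real.log_nonneg hX1
  -- the floors
  have hw : (X : ℝ) ^ (1 / 30 : ℝ) / 2 ≤ (⌊(X : ℝ) ^ (1 / 30 : ℝ)⌋₊ : ℝ) := by
    have h1 := Nat.lt_floor_add_one ((X : ℝ) ^ (1 / 30 : ℝ))
    have h2 : (3 : ℝ) ≤ (X : ℝ) ^ (1 / 30 : ℝ) := by
      have h1 : ((3 : ℝ)) = ((3 : ℝ) ^ (30 : ℕ)) ^ (1 / 30 : ℝ) := by
        rw [← Real.rpow_natCast, ← Real.rpow_mul (by norm_num)]
        norm_num
      rw [h1]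
      apply Real.rpow_le_rpow (by positivity) _ (by norm_num)
      exact_mod_cast hX
    linarith
  have hZ : (⌊(X : ℝ) ^ (2 / 3 : ℝ)⌋₊ : ℝ) ≤ (X : ℝ) ^ (2 / 3 : ℝ) := Nat.floor_le (by positivity)
  have hM : (⌊3 * (X : ℝ) ^ (2 / 3 : ℝ)⌋₊ : ℝ) ≤ 3 * (X : ℝ) ^ (2 / 3 : ℝ) := Nat.floor_le (by positivity)
  have hL : (Nat.log 2 X : ℝ) ≤ 2 * Real.log X := by
    have h1 : (2 : ℝ) ^ (Nat.log 2 X) ≤ X := by
      exact_mod_cast Nat.pow_log_le_self 2 (show X ≠ 0 by rintro rfl; norm_num at hX)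
    have h2 := Real.log_le_log (by positivity) h1
    rw [Real.log_pow] at h2
    have h3 : (1 / 2 : ℝ) ≤ Real.log 2 := by
      have := Real.log_two_gt_d9
      linarith
    have h4 : (Nat.log 2 X : ℝ) * (1 / 2) ≤ (Nat.log 2 X : ℝ) * Real.log 2 :=
      mul_le_mul_of_nonneg_left h3 (by positivity)
    linarith
  have hlog1 : 1 ≤ Real.log X := by
    rw [← Real.log_exp 1]
    apply Real.log_le_log (Real.exp_pos 1)
    have h1 := Real.exp_one_lt_d9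
    have h2 : (3 : ℝ) ≤ X := by
      have : 3 ≤ X := le_trans (by norm_num) hX
      exact_mod_cast this
    linarith
  -- the three terms
  have t1 : 2 * X / (⌊(X : ℝ) ^ (1 / 30 : ℝ)⌋₊ : ℝ) ≤ 4 * X * (X : ℝ) ^ (-(1 / 30) : ℝ) := by
    have hp : 0 < (X : ℝ) ^ (1 / 30 : ℝ) := by positivity
    rw [Real.rpow_neg hX0.le, ← div_eq_mul_inv]
    rw [div_le_div_iff₀ (by linarith) hp]
    nlinarith
  have t3 : 20 * ((Nat.log 2 X : ℝ) + 1) * (⌊3 * (X : ℝ) ^ (2 / 3 : ℝ)⌋₊ : ℝ) ≤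
      180 * Real.log X * (X : ℝ) ^ (2 / 3 : ℝ) := by
    have h1 : 20 * ((Nat.log 2 X : ℝ) + 1) ≤ 60 * Real.log X := by linarith
    calc 20 * ((Nat.log 2 X : ℝ) + 1) * (⌊3 * (X : ℝ) ^ (2 / 3 : ℝ)⌋₊ : ℝ)
        ≤ (60 * Real.log X) * (3 * (X : ℝ) ^ (2 / 3 : ℝ)) :=
          mul_le_mul h1 hM (by positivity) (by positivity)
      _ = _ := by ring
  have t2 : 2 * (⌊(X : ℝ) ^ (2 / 3 : ℝ)⌋₊ : ℝ) ≤ 2 * Real.log X * (X : ℝ) ^ (2 / 3 : ℝ) := by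
    have hp : 0 < (X : ℝ) ^ (2 / 3 : ℝ) := by positivity
    nlinarith
  have hN1 : N ≤ 4 * X * (X : ℝ) ^ (-(1 / 30) : ℝ) + 182 * Real.log X * (X : ℝ) ^ (2 / 3 : ℝ) := by
    linarith
  have hla : Real.log X ≤ 60 * (X : ℝ) ^ (1 / 60 : ℝ) := by
    have := Real.log_le_rpow_div hX0.le (show (0 : ℝ) < 1 / 60 by norm_num)
    calc Real.log X ≤ (X : ℝ) ^ (1 / 60 : ℝ) / (1 / 60) := this
      _ = _ := by ring
  have hlb : Real.log X ≤ 12 * (X : ℝ) ^ (1 / 12 : ℝ) := by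
    have := Real.log_le_rpow_div hX0.le (show (0 : ℝ) < 1 / 12 by norm_num)
    calc Real.log X ≤ (X : ℝ) ^ (1 / 12 : ℝ) / (1 / 12) := this
      _ = _ := by ring
  have e1 : N * Real.log X / X ≤ (4 * (X : ℝ) ^ (-(1 / 30) : ℝ)) * Real.log X +
      (182 * (X : ℝ) ^ (-(1 / 3) : ℝ)) * (Real.log X * Real.log X) := by
    rw [div_le_iff₀ hX0]
    have h1 : (X : ℝ) ^ (2 / 3 : ℝ) = (X : ℝ) ^ (-(1 / 3) : ℝ) * X := by
      nth_rewrite 3 [← Real.rpow_one (X : ℝ)]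
      rw [← Real.rpow_add hX0]
      norm_num
    calc N * Real.log X ≤ (4 * X * (X : ℝ) ^ (-(1 / 30) : ℝ) +
          182 * Real.log X * (X : ℝ) ^ (2 / 3 : ℝ)) * Real.log X :=
          mul_le_mul_of_nonneg_right hN1 hlog
      _ = _ := by rw [h1]; ring
  have e2 : (4 * (X : ℝ) ^ (-(1 / 30) : ℝ)) * Real.log X ≤ 240 * (X : ℝ) ^ (-(1 / 60) : ℝ) := by
    calc (4 * (X : ℝ) ^ (-(1 / 30) : ℝ)) * Real.log X
        ≤ (4 * (X : ℝ) ^ (-(1 / 30) : ℝ)) * (60 * (X : ℝ) ^ (1 / 60 : ℝ)) :=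
          mul_le_mul_of_nonneg_left hla (by positivity)
      _ = 240 * ((X : ℝ) ^ (-(1 / 30) : ℝ) * (X : ℝ) ^ (1 / 60 : ℝ)) := by ring
      _ = _ := by rw [← Real.rpow_add hX0]; norm_num
  have e3 : (182 * (X : ℝ) ^ (-(1 / 3) : ℝ)) * (Real.log X * Real.log X) ≤
      100000 * (X : ℝ) ^ (-(1 / 6) : ℝ) := by
    calc (182 * (X : ℝ) ^ (-(1 / 3) : ℝ)) * (Real.log X * Real.log X)
        ≤ (182 * (X : ℝ) ^ (-(1 / 3) : ℝ)) * ((12 * (X : ℝ) ^ (1 / 12 : ℝ)) * (12 * (X : ℝ) ^ (1 / 12 : ℝ))) :=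
          mul_le_mul_of_nonneg_left (mul_le_mul hlb hlb hlog (by positivity)) (by positivity)
      _ = 26208 * ((X : ℝ) ^ (-(1 / 3) : ℝ) * (X : ℝ) ^ (1 / 12 : ℝ) * (X : ℝ) ^ (1 / 12 : ℝ)) := by ring
      _ = 26208 * (X : ℝ) ^ (-(1 / 6) : ℝ) := by
          rw [← Real.rpow_add hX0, ← Real.rpow_add hX0]; norm_num
      _ ≤ _ := by
          have : 0 < (X : ℝ) ^ (-(1 / 6) : ℝ) := by positivity
          nlinarith
  linarith

end Pool.Agent.Y141.PA
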